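import Pool.Agent.Q136.SG.Real

/-!
# The `μ`-invariants of totally real fields grow strictly in all extensions of degree divisible by `p`

Let `p` be an odd prime and `L / E` an extension of totally real fields with `L ∩ E^cyc = E`, Galois or not. If `p` divides
`[L : E]` then `μ(L) ≥ μ(E) + m(E)`, where `m(E)` is the number of the summands `Λ / (p ^ (m_i))` of `X_Σ(E)`.
-/

set_option autoImplicit false
set_option maxHeartbeats 4000000
set_option synthInstance.maxHeartbeats 400000

namespace Pool.Agent.Results.MP_4e64b4_nt.StrictGrowthAllExtensions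

open Pool.Agent.Q173.MU Pool.Agent.Q50.MU Pool.Agent.Q136.SG.Real

/-- Let `p` be an odd prime. For a totally real field `E` let `μ(E)` be the `μ`-invariant `∑ m_i` of `X_Σ(E)` and `m(E)` the
number of the summands `Λ / (p ^ (m_i))`. Assume the known properties of the Iwasawa modules. Then `μ(E) = 0` if and only if
`m(E) = 0`. For ALL extensions `L / E` of totally real fields with `L ∩ E^cyc = E` and `p ∣ [L : E]`, Galois or not,
`μ(L) ≥ μ(E) + m(E)`, and `μ(L) ≥ 2 μ(E)` if `[L : E]` is divisible by `p ^ μ(E)`. So `μ(E) = 0` if and only if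
`μ(L) = μ(E)` for one such `L`, and the conjecture `μ = 0` for all totally real fields holds if and only if every totally
real field `E` has such an extension `L` with `μ(L) = μ(E)`. -/
theorem result (p : ℕ) [Fact p.Prime] (_ : p ≠ 2) (D : IwData) (hD : Known D p) :
    (∀ E, IsTotReal E → (D.mu E = 0 ↔ D.m E = 0)) ∧
    (∀ E L : IntermediateField ℚ ℂ, IsRealExt p E L → D.mu E + D.m E ≤ D.mu L ∧
      (p ^ D.mu E ∣ deg E L → 2 * D.mu E ≤ D.mu L)) ∧
    (∀ E, IsTotReal E → (D.mu E = 0 ↔ ∃ L, IsRealExt p E L ∧ D.mu L = D.mu E)) ∧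
    ((∀ E, IsTotReal E → D.mu E = 0) ↔ ∀ E, IsTotReal E → ∃ L, IsRealExt p E L ∧ D.mu L = D.mu E) := by
  obtain ⟨h0, h1, _, h3, h4⟩ := full p ‹_› D hD
  exact ⟨fun E hE => (h0 E hE).2, h1, h3, h4⟩

end Pool.Agent.Results.MP_4e64b4_nt.StrictGrowthAllExtensions
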