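import Pool.Agent.Q136.SG.Real

/-!
# The growth of the `μ`-invariants of totally real fields in Galois `p`-extensions

For a Galois `p`-extension of totally real fields with group `G` and `L ∩ E^cyc = E` one has
`μ(L) ≥ μ(E) + (i(G) - 1) m(E)`, where `i(G)` is the number of the irreducible constituents of the regular representation of
`G` over `ℚ`.
-/

set_option autoImplicit false
set_option maxHeartbeats 4000000
set_option synthInstance.maxHeartbeats 400000

namespace Pool.Agent.Results.MP_4e64b4_nt.StrictGrowthPExtensions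

open Pool.Agent.Q173.MU Pool.Agent.Q50.MU Pool.Agent.Q136.SG.Real

/-- Let `p` be an odd prime. For a totally real field `E` let `μ(E)` be the `μ`-invariant `∑ m_i` of `X_Σ(E)` and `m(E)` the
number of the summands `Λ / (p ^ (m_i))`. Assume the known properties of the Iwasawa modules. For ALL Galois `p`-extensions
`L / E` of totally real fields with group `G` and `L ∩ E^cyc = E`: `μ(L) ≥ μ(E) + (i(G) - 1) m(E)`, where `i(G)` is the number
of the irreducible constituents of the regular representation of `G` over `ℚ`. If `G` has order `p ^ n` then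
`μ(L) ≥ μ(E) + n m(E)`. If `G` is abelian of exponent dividing `N` then `φ(N) (μ(L) - μ(E)) ≥ ([L : E] - 1) m(E)`. If `L ≠ E`
then `μ(E) = 0` if and only if `μ(L) = μ(E)`. -/
theorem result (p : ℕ) [Fact p.Prime] (_ : p ≠ 2) (D : IwData) (hD : Known D p) :
    ∀ (E L : IntermediateField ℚ ℂ) (h : E ≤ L), IsTotReal E → IsTotReal L → IsExt p h → IsPGroup p (GalGrp h) →
      D.mu E + (irr (GalGrp h) - 1) * D.m E ≤ D.mu L ∧
      (∀ n, deg E L = p ^ n → D.mu E + n * D.m E ≤ D.mu L) ∧
      (∀ N : ℕ, 0 < N → (∀ σ τ : GalGrp h, σ * τ = τ * σ) → (∀ σ : GalGrp h, σ ^ N = 1) →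
        (deg E L - 1) * D.m E ≤ N.totient * (D.mu L - D.mu E)) ∧
      (E < L → (D.mu E = 0 ↔ D.mu L = D.mu E)) :=
  (full p ‹_› D hD).2.2.1

end Pool.Agent.Results.MP_4e64b4_nt.StrictGrowthPExtensions
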