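import Pool.Agent.Q173.MU.Data

/-!
# The `μ`-invariant of totally real fields in arbitrary `p`-extensions

For totally real fields the `p`-ramified Iwasawa module, localised at `(p)`, is presented by a square matrix over the group
ring of every finite Galois `p`-extension. This gives upper and lower bounds for the number `m(L)` of the summands
`Λ / (p ^ (m_i))` for ALL finite Galois `p`-extensions `L / E` of totally real fields, abelian or not:
`m(E) [L : E] / l(G) ≤ m(L) ≤ m(E) [L : E]`, where `l(G)` is the nilpotency index of the augmentation ideal of the group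
ring of the Galois group `G` over a field of characteristic `p`. If `G` is abelian of exponent `p ^ e` and `m(E) ≠ 0`, then
also `m(L) ≥ [L : E] / p ^ e`.
-/

set_option autoImplicit false

namespace Pool.Agent.Results.MP_4e64b4_nt.TwoSidedBounds

open Pool.Agent.Q173.MU IsLocalRing

/-- The field is totally real. -/
def IsTotReal (E : IntermediateField ℚ ℂ) : Prop :=
  FiniteDimensional ℚ E ∧ ∀ v : NumberField.InfinitePlace E, v.IsReal

/-- Square presentations: let `L / E` be a finite Galois `p`-extension of totally real fields with group `G` such that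
`L ∩ E^cyc = E`. Then the module `X L = X_Σ(L) ⊗_Λ Λ_(p)` has a presentation over the group ring `O[G]` with `m(E)`
generators and `m(E)` relations, and its coinvariants are `X E`. (For a set `Σ` which contains the places ramified in `L`
the complex `RΓ(𝓞_{E,Σ}, (Λ[G])^∨)^∨` is perfect and its Euler characteristic is zero; by the weak Leopoldt conjecture,
proved by Iwasawa, its localisation at `(p)` has only one cohomology group, `X_Σ(L) ⊗ O`, which does not depend on `Σ`.) -/
def HasSquarePres (D : IwData) (p : ℕ) : Prop :=
  ∀ (E L : IntermediateField ℚ ℂ) (h : E ≤ L), IsTotReal L → IsExt p h → IsPGroup p (GalGrp h) →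
    IsPres D.O (GalGrp h) (D.X L) (D.X E) (D.m E) (D.m E)

/-- The known properties of the modules `X E = X_Σ(E) ⊗_Λ Λ_(p)`. -/
structure Known (D : IwData) (p : ℕ) : Prop where
  loc : D.IsLoc p
  torsion : D.IsTorsion
  pres : HasSquarePres D p

/-- The `l`-th power of the augmentation ideal of the group ring of `G` over the residue field of `O` is zero. -/
def NilIndex (D : IwData) (G : Type) [Group G] (l : ℕ) : Prop := augSub (ResidueField D.O) G ^ l = ⊥

/-- The number `m(L)` is at least `m(E) [L : E] / l` and at most `m(E) [L : E]`. -/
def TwoSided (D : IwData) (E L : IntermediateField ℚ ℂ) (l : ℕ) : Prop :=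
  D.m E * deg E L ≤ l * D.m L ∧ D.m L ≤ deg E L * D.m E

/-- Let `p` be an odd prime. For a totally real field `E` let `μ(E)` be the `μ`-invariant `∑ m_i` of `X_Σ(E)` and `m(E)`
the number of the summands `Λ / (p ^ (m_i))`, so that `m(E) ≤ μ(E)`, and `μ(E) = 0` if and only if `m(E) = 0`. For ALL
finite Galois `p`-extensions `L / E` of totally real fields with `L ∩ E^cyc = E` and group `G`:
`m(E) [L : E] / l ≤ m(L) ≤ m(E) [L : E]` if the `l`-th power of the augmentation ideal of the group ring of `G` in
characteristic `p` is zero. -/
theorem result (p : ℕ) [Fact p.Prime] (_ : p ≠ 2) (D : IwData) (hD : Known D p) :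
    (∀ E, IsTotReal E → D.m E ≤ D.mu E ∧ (D.mu E = 0 ↔ D.m E = 0)) ∧
    (∀ (E L : IntermediateField ℚ ℂ) (h : E ≤ L), IsTotReal L → IsExt p h → IsPGroup p (GalGrp h) →
      ∀ l, NilIndex D (GalGrp h) l → TwoSided D E L l) := by
  refine ⟨?_, ?_⟩
  · intro E hE
    exact ⟨D.m_le_mu hD.torsion hE.1, D.mu_eq_zero_iff hD.torsion hE.1⟩
  · intro E L h hL hE hp l hl
    have hfin := finite_gal hE
    have hP := hD.pres E L h hL hE hp
    constructor
    · rw [← card_gal hE]
      exact hP.mul_card_le hl
    · rw [← card_gal hE]
      exact hP.rk_le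

end Pool.Agent.Results.MP_4e64b4_nt.TwoSidedBounds
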